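import Pool.Agent.H86.PpA

set_option autoImplicit false

namespace Pool.Agent.Results.MP_7e59b3_an.Lower

open Filter Topology Pool.Agent.H86.Pmc
open scoped ENNReal

/-- The class `H_n²` of polynomial curves. -/
def H2 (n : ℕ) : Set (Set (ℝ × ℝ)) :=
  {γ | ∃ P Q : Polynomial ℝ, P.natDegree ≤ n ∧ Q.natDegree ≤ n ∧
    γ = trace (fun t => P.eval t) (fun t => Q.eval t)}

/-- The constant `c₁` (unit square). -/
noncomputable def c1 : ℝ≥0∞ :=
  limsup (fun n : ℕ => ENNReal.ofReal √(n : ℝ) * errW (H2 n) (ZD 0 1)) atTop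

theorem result :
    (∀ n : ℕ, 1 ≤ n → ENNReal.ofReal (1 / (2 * √(n : ℝ) + 8)) ≤ errW (H2 n) (ZD 0 1)) ∧
    1 / 2 ≤ c1 := by
  have key : ∀ n : ℕ, 1 ≤ n →
      ENNReal.ofReal (1 / (2 * √(n : ℝ) + 8)) ≤ errW (H2 n) (ZD 0 1) := fun n hn =>
    (lowZ n).trans (errW_mono (W' := M2 n) (ZD 0 1) (by
      rintro _ ⟨P, Q, hP, hQ, rfl⟩
      exact ⟨_, _, poly_inM P hn hP, poly_inM Q hn hQ, rfl⟩))
  refine ⟨key, ?_⟩
  have h3 : ENNReal.ofReal (1 / 2) = 1 / 2 := by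
    rw [ENNReal.ofReal_div_of_pos (by norm_num)]; simp
  rw [← h3]
  exact lim_low (by norm_num) (by norm_num) _
    (Real.tendsto_sqrt_atTop.comp tendsto_natCast_atTop_atTop) _ key

end Pool.Agent.Results.MP_7e59b3_an.Lower
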